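import Pool.Agent.H64.STM.Targets
import Pool.Agent.H35.FTM.GLO

/-!
# MP_fd35e1: row SFA: numerically trivial combinations of diagrams
-/

set_option autoImplicit false

open Matrix Pool.Agent.H64.CC Pool.Agent.H2.NL Pool.Agent.H2.KM Pool.Agent.H64.EV
open Pool.Agent.H64.FTM Pool.Agent.H64.STM Pool.Agent.H35.FTM

namespace Pool.Agent.H35.STM

section gen

variable {K : Type} [Field K] {I : Type} [Fintype I]

theorem prg_add (H : OForm K I) {m : ℕ} (f g g' : (Fin m → I) → K) :
    pr H f (g + g') = pr H f g + pr H f g' := by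
  unfold pr
  rw [← Finset.sum_add_distrib]
  refine Finset.sum_congr rfl fun w _ => ?_
  show (∏ i, H.c (w i)) * f w * (g _ + g' _) = _
  ring

theorem prg_smul (H : OForm K I) {m : ℕ} (c : K) (f g : (Fin m → I) → K) :
    pr H f (c • g) = c * pr H f g := by
  unfold pr
  rw [Finset.mul_sum]
  refine Finset.sum_congr rfl fun w _ => ?_
  show (∏ i, H.c (w i)) * f w * (c * g _) = _
  ring

theorem prg_zero (H : OForm K I) {m : ℕ} (f : (Fin m → I) → K) : pr H f 0 = 0 := by
  unfold pr
  refine Finset.sum_eq_zero fun w _ => ?_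
  show (∏ i, H.c (w i)) * f w * 0 = 0
  ring

theorem prg_lc [CharZero K] (H : OForm K I) {m : ℕ} (D g : (Fin m → I) → K) :
    ∀ c : List (ℚ × Equiv.Perm (Fin m)), pr H (lc H.o D c) g =
      (c.map fun x => (x.1 : K) * pr H (ac H.o x.2 D) g).sum := by
  intro c
  induction c with
  | nil =>
    unfold pr
    refine Finset.sum_eq_zero fun w _ => ?_
    show (∏ i, H.c (w i)) * 0 * g _ = 0
    ring
  | cons x c ih =>
    rw [List.map_cons, List.sum_cons, ← ih]
    unfold pr
    rw [Finset.mul_sum, ← Finset.sum_add_distrib]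
    refine Finset.sum_congr rfl fun w _ => ?_
    show (∏ i, H.c (w i)) * ((x.1 : K) * ac H.o x.2 D w + lc H.o D c w) * g _ = _
    ring

theorem lc_ne [CharZero K] (o : I → Bool) {m : ℕ} (D : (Fin m → I) → K) (w : Fin m → I) :
    ∀ c : List (ℚ × Equiv.Perm (Fin m)), lc o D c w ≠ 0 → ∃ σ, ac o σ D w ≠ 0 := by
  intro c
  induction c with
  | nil =>
    intro h
    exact absurd rfl h
  | cons x c ih =>
    intro h
    by_cases h1 : ac o x.2 D w = 0
    · apply ih
      intro h2
      apply h
      show (x.1 : K) * ac o x.2 D w + lc o D c w = 0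
      rw [h1, h2, mul_zero, add_zero]
    · exact ⟨x.2, h1⟩

end gen

section main

variable {K : Type} [Field K] {J E : Type}

/-- restriction to the words of the first factor -/
def res {m : ℕ} (f : (Fin m → J ⊕ E) → K) (w : Fin m → J) : K := f fun i => Sum.inl (w i)

theorem res_rvf {m : ℕ} (f : (Fin m → J ⊕ E) → K) : res (rvf f) = rvf (res f) := rfl

theorem sw_map (F : OForm K J) (G : OForm K E) : ∀ (j : ℕ) (w : List J) (t : List (J ⊕ E) → K),
    sw F.o j (fun v => t (v.map Sum.inl)) w = sw (osum F G).o j t (w.map Sum.inl) := by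
  intro j
  induction j with
  | zero =>
    intro w t
    match w with
    | [] => rfl
    | [a] => rfl
    | a :: b :: l => rfl
  | succ j ih =>
    intro w t
    match w with
    | [] => rfl
    | a :: l => exact ih l (fun l' => t (Sum.inl a :: l'))

theorem ty_zero {n a : ℕ} {t : List (J ⊕ E) → K} (ht : Ty n a t) (hn : a < n) (v : List J)
    (hv : v.length = n) : t (v.map Sum.inl) = 0 := by
  by_contra hne
  obtain ⟨u, v', hu, he⟩ := ht _ (by rw [List.length_map, hv]) hne
  have h1 : v.length = u.length + v'.length := by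
    have := congrArg List.length he
    simpa using this
  have h2 : v' ≠ [] := by
    intro h
    rw [h] at h1
    simp at h1
    omega
  obtain ⟨e, he'⟩ := List.exists_mem_of_ne_nil v' h2
  have h3 : (Sum.inr e : J ⊕ E) ∈ v.map Sum.inl := by
    rw [he]
    exact List.mem_append_right _ (List.mem_map_of_mem he')
  obtain ⟨x, -, hx⟩ := List.mem_map.1 h3
  exact absurd hx (by simp)

variable [CharZero K] [Fintype J] [DecidableEq J] [Fintype E] [DecidableEq E]
  {F : OForm K J} {G : OForm K E} {A : ℕ → Submodule ℚ (List (J ⊕ E) → K)}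

theorem ev_tp_zero {k i : ℕ} (hi : i ≤ k) (t : List J → K)
    (ht : ∀ v : List J, v.length = 2 * (k - i) → t v = 0) :
    ev (2 * k) (tp (2 * i) (omk F.ω i) t) = 0 := by
  funext w
  show omk F.ω i ((List.ofFn w).take (2 * i)) * t ((List.ofFn w).drop (2 * i)) = 0
  rw [ht, mul_zero]
  rw [List.length_drop, List.length_ofFn]
  omega

theorem ac_zero {I : Type} (o : I → Bool) {m : ℕ} (σ : Equiv.Perm (Fin m)) :
    ac (K := K) o σ 0 = 0 := by
  funext w
  show kap o σ w * 0 = 0
  rw [mul_zero]

theorem gen_zero (hRES : T_RES) (hALT : T_ALT) {z : K} {b k : ℕ}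
    (c : List (ℚ × Equiv.Perm (Fin (2 * k))))
    (H : ∀ τ : Equiv.Perm (Fin (2 * k)),
      pr F (lc F.o (dg F k) c) (rvf (ac F.o τ (dg F k))) = 0)
    (g : (Fin (2 * k) → J ⊕ E) → K) (hg : g ∈ Tau F G A z b k) :
    pr F (lc F.o (dg F k) c) (rvf (res g)) = 0 := by
  obtain ⟨r1, r2, r3, r4, r5⟩ := hRES K J E F G
  induction hg using Submodule.span_induction with
  | mem g hg =>
    obtain ⟨i, hi, t, ht, hb, τ, rfl⟩ := hg
    set t' : List J → K := fun v => t (v.map Sum.inl) with ht'
    have e1 : res (ac (osum F G).o τ (ev (2 * k) (tp (2 * i) (omk (Om F E) i) t))) =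
        ac F.o τ (ev (2 * k) (tp (2 * i) (omk F.ω i) t')) := by
      funext w
      show ac (osum F G).o τ (ev (2 * k) (tp (2 * i) (omk (Om F E) i) t))
        (fun i => Sum.inl (w i)) = _
      rw [r1]
      congr 1
      funext v
      exact r3 k i t v hi
    rw [e1]
    -- the case of no other places
    have hz : i = k → pr F (lc F.o (dg F k) c)
        (rvf (ac F.o τ (ev (2 * k) (tp (2 * i) (omk F.ω i) t')))) = 0 := by
      intro hik
      subst hik
      have e2 : rvf (ac F.o τ (ev (2 * i) (tp (2 * i) (omk F.ω i) t'))) =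
          t' [] • rvf (ac F.o τ (dg F i)) := by
        funext w
        show kap F.o τ _ * (omk F.ω i ((List.ofFn _).take (2 * i)) *
          t' ((List.ofFn _).drop (2 * i))) = t' [] * (kap F.o τ _ * omk F.ω i (List.ofFn _))
        rw [List.take_of_length_le (by rw [List.length_ofFn]),
          List.drop_of_length_le (by rw [List.length_ofFn])]
        ring
      rw [e2, prg_smul, H τ, mul_zero]
    have hz' : (∀ v : List J, v.length = 2 * (k - i) → t' v = 0) → pr F (lc F.o (dg F k) c)
        (rvf (ac F.o τ (ev (2 * k) (tp (2 * i) (omk F.ω i) t')))) = 0 := by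
      intro h
      rw [ev_tp_zero hi t' h, ac_zero]
      exact prg_zero F _
    rcases hb with hb | ⟨-, hbn, hb, hal⟩
    · rcases Nat.eq_zero_or_pos (2 * (k - i)) with h0 | h0
      · exact hz (by omega)
      · exact hz' fun v hv => ty_zero hb h0 v hv
    · rcases hbn.lt_or_eq with h0 | h0
      · exact hz' fun v hv => ty_zero hb h0 v hv
      · rcases Nat.eq_zero_or_pos b with h1 | h1
        · exact hz (by omega)
        · have h2 : 2 ≤ b := by omega
          have h3 : 2 * i + b = 2 * k := by omega
          have h4 : ∀ j, j + 2 ≤ b → ∀ w, w.length = b → sw F.o j t' w = -t' w := by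
            intro j hj w hw
            rw [ht', sw_map F G]
            exact hal j hj _ (by rw [List.length_map, hw, h0])
          rw [prg_lc]
          have h5 : ∀ x ∈ c.map (fun x => (x.1 : K) * pr F (ac F.o x.2 (dg F k))
              (rvf (ac F.o τ (ev (2 * k) (tp (2 * i) (omk F.ω i) t'))))), x = 0 := by
            intro y hy
            obtain ⟨x, -, rfl⟩ := List.mem_map.1 hy
            rw [hALT K J F k i b t' h2 h3 h4, mul_zero]
          exact List.sum_eq_zero h5
  | zero =>
    have : rvf (res (0 : (Fin (2 * k) → J ⊕ E) → K)) = 0 := rfl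
    rw [this]
    exact prg_zero F _
  | add g g' _ _ h h' =>
    have : rvf (res (g + g')) = rvf (res g) + rvf (res g') := rfl
    rw [this, prg_add, h, h', add_zero]
  | smul q g _ h =>
    have : rvf (res (q • g)) = (q : K) • rvf (res g) := by
      funext w
      show q • g _ = (q : K) * g _
      rw [Rat.smul_def]
    rw [this, prg_smul, h, mul_zero]

end main

theorem pf_SFA (hAFA : T_AFA) (hTYB : T_TYB) (hCUT : T_CUT) (hBRM : T_BRM) (hEVC : T_EVC)
    (hALT : T_ALT) (hRES : T_RES) : T_SFA := by
  intro K _ _ J E _ _ _ _ F G A hM z b hF k c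
  obtain ⟨r1, r2, r3, r4, r5⟩ := hRES K J E F G
  obtain ⟨-, -, ev3, ev4, ev5⟩ := hEVC K J F
  obtain ⟨-, hAf⟩ := hAFA K (J ⊕ E) (osum F G).o (osum F G).η (osum F G).ω A hM.calculus
  obtain ⟨br1, -, -⟩ := hBRM K J E F G A hM z b
  obtain ⟨-, ty2, -⟩ := hTYB K J E (2 * k) (2 * k) le_rfl
  set D : (Fin (2 * k) → J ⊕ E) → K := ev (2 * k) (omk (Om F E) k) with hD
  set X : (Fin (2 * k) → J ⊕ E) → K := lc (osum F G).o D c with hX
  set X' : (Fin (2 * k) → J) → K := lc F.o (dg F k) c with hX'
  have hresD : res D = dg F k := by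
    funext w
    exact r5 k w
  have hresac : ∀ σ : Equiv.Perm (Fin (2 * k)), res (ac (osum F G).o σ D) =
      ac F.o σ (dg F k) := by
    intro σ
    funext w
    show ac (osum F G).o σ D (fun i => Sum.inl (w i)) = _
    rw [r1, ← hresD]
    rfl
  have hresX : res X = X' := by
    funext w
    show (c.map fun x => (x.1 : K) * ac (osum F G).o x.2 D (fun i => Sum.inl (w i))).sum =
      (c.map fun x => (x.1 : K) * ac F.o x.2 (dg F k) w).sum
    congr 1
    apply List.map_congr_left
    intro x _
    have := congrFun (hresac x.2) w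
    have e : ac (osum F G).o x.2 D (fun i => Sum.inl (w i)) = ac F.o x.2 (dg F k) w := this
    rw [e]
  -- types
  have hTac : ∀ σ : Equiv.Perm (Fin (2 * k)), Tyf (2 * k) (ac (osum F G).o σ D) := fun σ =>
    ty2 (osum F G).o σ D (fun i => iff_of_true (σ i).2 i.2) (r4 k)
  have hTX : Tyf (2 * k) X := by
    intro w hw
    obtain ⟨σ, hσ⟩ := lc_ne _ _ w c hw
    exact hTac σ w hσ
  have hTrv : ∀ f : (Fin (2 * k) → J ⊕ E) → K, Tyf (2 * k) f → Tyf (2 * k) (rvf f) := by
    intro f hf w hw i
    have h1 := hf _ hw i.rev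
    simp only [Fin.rev_rev] at h1
    rw [h1, decide_eq_true i.2, decide_eq_true i.rev.2]
  -- evenness
  have hev : ∀ w, X' w ≠ 0 → Even (odds F.o (List.ofFn w)) := by
    intro w hw
    obtain ⟨σ, hσ⟩ := lc_ne _ _ w c hw
    exact ev5 k σ w hσ
  -- membership
  have hDτ : ∀ τ : Equiv.Perm (Fin (2 * k)), ac (osum F G).o τ D ∈ Tau F G A z b k := by
    intro τ
    apply Submodule.subset_span
    refine ⟨k, le_rfl, fun _ => 1, ?_, Or.inl ?_, τ, ?_⟩
    · rw [Nat.sub_self]
      exact hM.calculus.one
    · intro w hw _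
      have : w = [] := by
        apply List.length_eq_zero_iff.1
        rw [hw, Nat.sub_self, mul_zero]
      exact ⟨[], [], rfl, by rw [this]; rfl⟩
    · congr 1
      funext w
      show omk (Om F E) k (List.ofFn w) = omk (Om F E) k ((List.ofFn w).take (2 * k)) * 1
      rw [List.take_of_length_le (by rw [List.length_ofFn]), mul_one]
  have hDA : ∀ τ : Equiv.Perm (Fin (2 * k)), ac (osum F G).o τ D ∈ Af A k := fun τ =>
    br1 k (hDτ τ)
  have hXA : X ∈ Af A k := by
    have : ∀ c : List (ℚ × Equiv.Perm (Fin (2 * k))), lc (osum F G).o D c ∈ Af A k := by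
      intro c
      induction c with
      | nil =>
        have : lc (osum F G).o D [] = 0 := rfl
        rw [this]
        exact (Af A k).zero_mem
      | cons x c ih =>
        have : lc (osum F G).o D (x :: c) = x.1 • ac (osum F G).o x.2 D +
            lc (osum F G).o D c := by
          funext w
          show (x.1 : K) * ac (osum F G).o x.2 D w + lc (osum F G).o D c w =
            x.1 • ac (osum F G).o x.2 D w + lc (osum F G).o D c w
          rw [Rat.smul_def]
        rw [this]
        exact (Af A k).add_mem ((Af A k).smul_mem _ (hDA x.2)) ih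
    exact this c
  -- the symmetry of the pairing
  have hsym : ∀ f : (Fin (2 * k) → J) → K, pr F f (rvf X') = pr F X' (rvf f) := by
    intro f
    have e1 : pr F (rvf f) (rvf (rvf X')) = pr F f (rvf X') := ev3 _ _ _
    rw [← e1]
    have e2 : rvf (rvf X') = X' := by
      funext w
      show X' (fun i => w i.rev.rev) = X' w
      congr 1
      funext i
      rw [Fin.rev_rev]
    rw [e2]
    exact (ev4 _ _ _ hev).symm
  constructor
  · intro H τ
    have h1 := H _ (hDA τ)
    rw [r2 _ _ _ (hTac τ)] at h1
    have e1 : (fun w : Fin (2 * k) → J => ac (osum F G).o τ D fun i => Sum.inl (w i)) =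
        ac F.o τ (dg F k) := hresac τ
    have e2 : (fun w : Fin (2 * k) → J => rvf X fun i => Sum.inl (w i)) = rvf X' := by
      have : res (rvf X) = rvf X' := by rw [res_rvf, hresX]
      exact this
    rw [e1, e2, hsym] at h1
    exact h1
  · intro H x hx
    have hOT : OT F G A z b k (2 * k) X := by
      intro y hy _
      rw [r2 _ _ _ hTX]
      have e1 : (fun w : Fin (2 * k) → J => X fun i => Sum.inl (w i)) = X' := hresX
      have e2 : (fun w : Fin (2 * k) → J => y fun i => Sum.inl (w i)) = rvf (res (rvf y)) := by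
        funext w
        show y (fun i => Sum.inl (w i)) = y (fun i => Sum.inl (w i.rev.rev))
        congr 1
        funext i
        rw [Fin.rev_rev]
      rw [e1, e2]
      exact gen_zero hRES hALT c H (rvf y) hy
    have hNT := hF k (2 * k) le_rfl X hXA hTX hOT
    rw [pr_type F G x (rvf X) (hTrv X hTX)]
    set xJ := patS Finset.univ (fun i : Fin (2 * k) => decide (i.1 < 2 * k)) x with hxJ
    have hxJA : xJ ∈ Af A k := patS_mem hCUT hM _ _ _ hx
    have hxJT : Tyf (2 * k) xJ := pat_patS _ _
    have h1 := hNT (rvf xJ) (by rw [rvf_rvf]; exact hxJA) (hTrv xJ hxJT)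
    rw [r2 _ _ _ hxJT]
    rw [r2 _ _ _ hTX] at h1
    have e1 : (fun w : Fin (2 * k) → J => X fun i => Sum.inl (w i)) = X' := hresX
    have e2 : (fun w : Fin (2 * k) → J => rvf X fun i => Sum.inl (w i)) = rvf X' := by
      have : res (rvf X) = rvf X' := by rw [res_rvf, hresX]
      exact this
    have e3 : (fun w : Fin (2 * k) → J => rvf xJ fun i => Sum.inl (w i)) = rvf (res xJ) := rfl
    rw [e1, e3] at h1
    rw [e2]
    have h2 := hsym (res xJ)
    rw [h1] at h2
    exact h2

end Pool.Agent.H35.STM
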