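import Pool.Agent.H64.STM.Targets
import Pool.Agent.H85.FTM.WNU

/-!
# MP_fd35e1: row WNC: numerically trivial correspondences (adapted from H85/FTM/WNU)
-/

set_option autoImplicit false

open Matrix Pool.Agent.H64.CC Pool.Agent.H2.NL Pool.Agent.H2.KM Pool.Agent.H64.EV
open Pool.Agent.H64.FTM Pool.Agent.H64.STM Pool.Agent.H85.FTM

namespace Pool.Agent.H35.STM

theorem str_key (hPRF : T_PRF) (hOTP : T_OTP) (hOPJ : T_OPJ) (hPFB : T_PFB)
    {K : Type} [Field K] [CharZero K] {W : Weil K} {m : ℕ} {T : W.Var m}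
    {P : W.Powers T} {ε : W.Hom T T} {J E : Type} [Fintype J] [DecidableEq J] [Fintype E]
    [DecidableEq E] {F : OForm K J} {G : OForm K E} {j : Matrix (Fin (W.rk T)) (J ⊕ E) K}
    {i : Matrix (J ⊕ E) (Fin (W.rk T)) K} (hB : Basis W P ε F G j i) (k : ℕ)
    (x0 t : List (J ⊕ E) → K) :
    W.str (W.comp (P.oper k (pf j x0)) (P.oper k (pf j t))) =
      pr (osum F G) (ev (2 * k) x0) (rvf (ev (2 * k) t)) := by
  obtain ⟨σ, hσ⟩ : ∃ σ : Fin (W.rk (P.pow k)) ≃ List.Vector (Fin (W.rk T)) k,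
      ∀ a, (σ a).1 = P.word k a := by
    refine ⟨Equiv.ofBijective (fun a => ⟨P.word k a, (P.word_range k _).1 ⟨a, rfl⟩⟩)
      ⟨fun a b h => P.word_inj k (congrArg Subtype.val h), fun v => ?_⟩, fun a => rfl⟩
    obtain ⟨a, ha⟩ := (P.word_range k v.1).2 v.2
    exact ⟨a, Subtype.ext ha⟩
  have hsub : ∀ t : List (Fin (W.rk T)) → K,
      P.oper k t = (op P.form k t).submatrix σ σ := by
    intro t
    ext a b
    show opw P.form k t (P.word k a) (P.word k b) = opw P.form k t (σ a).1 (σ b).1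
    rw [hσ, hσ]
  have hmul : ∀ X Y : Matrix (List.Vector (Fin (W.rk T)) k) (List.Vector (Fin (W.rk T)) k) K,
      X.submatrix σ σ * Y.submatrix σ σ = (X * Y).submatrix σ σ :=
    fun X Y => Matrix.submatrix_mul_equiv X Y σ σ σ
  have hstr : ∀ X : Matrix (List.Vector (Fin (W.rk T)) k) (List.Vector (Fin (W.rk T)) k) K,
      W.str (X.submatrix σ σ) = ∑ u, sgw K (W.par T) u.1 * X u u := by
    intro X
    have h1 : ∀ a, (-1 : K) ^ W.deg (P.pow k) a = sgw K (W.par T) (σ a).1 := by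
      intro a
      rw [P.word_deg, sgw_par, hσ]
    have h2 : W.str (X.submatrix σ σ) = ∑ a, sgw K (W.par T) (σ a).1 * X (σ a) (σ a) := by
      unfold Weil.str
      refine Finset.sum_congr rfl fun a _ => ?_
      rw [h1 a, Matrix.submatrix_apply]
    rw [h2]
    exact Equiv.sum_comp σ (fun u => sgw K (W.par T) u.1 * X u u)
  obtain ⟨Jj, hJ⟩ : ∃ Jj, Jj = Jm j k := ⟨_, rfl⟩
  obtain ⟨Ii, hI⟩ : ∃ Ii, Ii = Jm i k := ⟨_, rfl⟩
  have hIJ : Ii * Jj = 1 := by
    rw [hI, hJ, (hPFB K _ _ _ i j).2.2.1 k, hB.ij,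
      (hPFB K (J ⊕ E) (J ⊕ E) (J ⊕ E) 1 1).2.2.2 k]
  have hop : ∀ t : List (J ⊕ E) → K,
      op P.form k (pf j t) = Jj * op (osum F G).η k t * Ii := by
    intro t
    rw [hJ, hI]
    exact hOPJ K _ _ P.form (osum F G).η j i hB.form k t
  obtain ⟨A, hA⟩ : ∃ A, A = op (osum F G).η k x0 := ⟨_, rfl⟩
  obtain ⟨C, hC⟩ : ∃ C, C = op (osum F G).η k t := ⟨_, rfl⟩
  have e1 : W.comp (P.oper k (pf j x0)) (P.oper k (pf j t)) =
      (Jj * A * Ii * (Jj * C * Ii)).submatrix σ σ := by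
    rw [hsub, hsub, hop, hop, ← hA, ← hC]
    exact hmul _ _
  have e4 : Jj * A * Ii * (Jj * C * Ii) = (Jj * (A * C)) * Ii := by
    calc Jj * A * Ii * (Jj * C * Ii) = Jj * A * (Ii * Jj) * (C * Ii) := by
          simp only [Matrix.mul_assoc]
      _ = (Jj * (A * C)) * Ii := by
          rw [hIJ, Matrix.mul_one]
          simp only [Matrix.mul_assoc]
  rw [e1, hstr, e4, str_cyc (fun u : List.Vector (Fin (W.rk T)) k => sgw K (W.par T) u.1)
      (fun u : List.Vector (J ⊕ E) k => sgw K (osum F G).o u.1) _ Ii ?_]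
  · have e6 : Ii * (Jj * (A * C)) = A * C := by
      rw [← Matrix.mul_assoc, hIJ, Matrix.one_mul]
    rw [e6, hA, hC, hOTP K _ (osum F G) k x0 t, (hPRF K _ (osum F G) (2 * k)).1,
      (hPRF K _ (osum F G) (2 * k)).2.2.2]
  · intro b a hba
    rw [hI] at hba
    exact zip_ne i (osum F G).o (W.par T) hB.i_par b.1 a.1 (b.2.trans a.2.symm) hba

theorem pf_WNC (hPRF : T_PRF) (hOTP : T_OTP) (hOPJ : T_OPJ) (hPFB : T_PFB) : T_WNC := by
  intro K _ _ W m T P ε J E _ _ _ _ F G j i hB k t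
  have hji : ∀ s : List (Fin (W.rk T)) → K, pf j (pf i s) = s := by
    intro s
    rw [(hPFB K _ _ _ j i).1 s, hB.ji,
      (hPFB K (Fin (W.rk T)) (Fin (W.rk T)) (Fin (W.rk T)) 1 1).2.1 s]
  constructor
  · intro h x hx
    obtain ⟨x0, hx0, rfl⟩ := hx
    rw [← str_key hPRF hOTP hOPJ hPFB hB]
    exact h _ ((P.graph k _).2 ⟨pf j x0, hx0, rfl⟩)
  · intro h g hg
    obtain ⟨tg, htg, hgt⟩ := (P.graph k g).1 hg
    have hg' : g = P.oper k (pf j (pf i tg)) := by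
      rw [hji]
      exact hgt
    have hx : pf i tg ∈ pull j P.toPowerData.classes k := by
      show pf j (pf i tg) ∈ P.toPowerData.classes k
      rw [hji]
      exact htg
    rw [hg', str_key hPRF hOTP hOPJ hPFB hB]
    exact h _ ⟨_, hx, rfl⟩

end Pool.Agent.H35.STM
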